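import Pool.Agent.N455.CS.Rich

/-!
# The doubly exponential bound for laws with finite energy (helper455)
-/

set_option autoImplicit false
set_option linter.unusedSectionVars false

namespace Pool.Agent.N455.CS

open Finset
open Pool.Agent.W994.AR
open scoped Classical

variable {B : Type}

theorem one_bound (G : Subgroup (Equiv.Perm B)) (M : ℕ) (hM : 0 < M)
    (hfin : ∀ k, Finite (Orb G (Fin k))) {N : ℕ} (hN : N = Nat.card (Orb G (Fin M)))
    {a c : ℝ} (ha : a = Real.log 2 / (2 * M * (N + 1))) (hc : c = Real.log 2 / (2 * M))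
    {t : ℕ} (k : Fin t → ℕ) (j : Fin t) (n : ℕ) (hn : n ≤ k j) [Fintype (Omega G k)]
    (μ : Finset (Omega G k) → ℝ) (hμ0 : ∀ R, 0 ≤ μ R) (hμ : FE (Real.exp (-(a * n))) μ) :
    ∑ R ∈ (Finset.univ : Finset (Finset (Omega G k))).filter
        (fun R : Finset (Omega G k) => ¬ Rich G (Fin M) (rel G k (R : Set (Omega G k)) j).1), μ R ≤
      (N + 2 : ℝ) * Real.exp (-((1 / 4 : ℝ) * Real.exp (c * n))) * ∑ R, μ R := by
  have hMr : (0 : ℝ) < M := by exact_mod_cast hM
  have hl2 : 0 < Real.log 2 := Real.log_pos (by norm_num)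
  have hN0 : (0 : ℝ) ≤ N := Nat.cast_nonneg _
  have hn0 : (0 : ℝ) ≤ n := Nat.cast_nonneg _
  have ha0 : 0 < a := by rw [ha]; positivity
  have hc0 : 0 < c := by rw [hc]; positivity
  have hS0 : 0 ≤ ∑ R, μ R := Finset.sum_nonneg fun R _ => hμ0 R
  have hfilter : ∑ R ∈ (Finset.univ : Finset (Finset (Omega G k))).filter
      (fun R : Finset (Omega G k) => ¬ Rich G (Fin M) (rel G k (R : Set (Omega G k)) j).1), μ R ≤
      ∑ R, μ R := Finset.sum_le_sum_of_subset_of_nonneg (filter_subset _ _) fun R _ _ => hμ0 R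
  rcases Nat.lt_or_ge n M with hk | hk
  · -- small n
    have h1 : Real.exp (c * n) ≤ 2 := by
      have h2 : c * n ≤ Real.log 2 := by
        have h3 : c * n ≤ c * M := mul_le_mul_of_nonneg_left (by exact_mod_cast hk.le) hc0.le
        have h4 : c * M = Real.log 2 / 2 := by rw [hc]; field_simp
        linarith
      calc Real.exp (c * n) ≤ Real.exp (Real.log 2) := Real.exp_le_exp.2 h2
        _ = 2 := Real.exp_log (by norm_num)
    have h4 : (1 : ℝ) / 2 ≤ Real.exp (-((1 / 4 : ℝ) * Real.exp (c * n))) := by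
      have := Real.add_one_le_exp (-((1 / 4 : ℝ) * Real.exp (c * n)))
      linarith
    have h5 : (1 : ℝ) ≤ (N + 2) * Real.exp (-((1 / 4 : ℝ) * Real.exp (c * n))) := by
      nlinarith
    calc _ ≤ 1 * ∑ R, μ R := by rw [one_mul]; exact hfilter
      _ ≤ _ := mul_le_mul_of_nonneg_right h5 hS0
  · -- large n
    have hq1 : 1 ≤ n / M := (Nat.one_le_div_iff hM).2 hk
    set m := n / M - 1 with hm
    have hm1 : m + 1 = n / M := by omega
    have hmk : (m + 1) * M ≤ k j := by rw [hm1]; exact (Nat.div_mul_le_self n M).trans hn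
    set ε := Real.exp (-(a * n)) with hε
    have hε0 : 0 ≤ ε := (Real.exp_pos _).le
    have hε1 : ε ≤ 1 := by
      rw [hε, Real.exp_le_one_iff]
      have := mul_nonneg ha0.le hn0
      linarith
    have := hfin M
    have h := rich_weight G k j M m hM hmk hε0 hε1 hμ0 hμ
    rw [← hN] at h
    refine h.trans ?_
    have hx0 : 0 ≤ ε ^ N := pow_nonneg hε0 _
    have hx1 : ε ^ N ≤ 1 := pow_le_one₀ hε0 hε1
    have h1 : (1 - ε ^ N) ^ (2 ^ m) ≤ Real.exp (-(ε ^ N * 2 ^ m)) := by
      have h2 : 1 - ε ^ N ≤ Real.exp (-ε ^ N) := by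
        have := Real.add_one_le_exp (-ε ^ N)
        linarith
      calc (1 - ε ^ N) ^ (2 ^ m) ≤ Real.exp (-ε ^ N) ^ (2 ^ m) :=
            pow_le_pow_left₀ (by linarith) h2 _
        _ = _ := by
            rw [← Real.exp_nat_mul]
            congr 1
            push_cast
            ring
    have h3 : Real.exp (Real.log 2 / M * n) / 4 ≤ 2 ^ m := by
      have h4 : ((n : ℝ) / M) ≤ (m : ℝ) + 2 := by
        have h5 : (n : ℝ) < ((n / M : ℕ) + 1 : ℝ) * M := by
          have := Nat.lt_mul_of_div_lt (Nat.lt_succ_self (n / M)) hM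
          exact_mod_cast this
        rw [div_le_iff₀ hMr]
        have h6 : ((n / M : ℕ) : ℝ) = m + 1 := by rw [← hm1]; push_cast; ring
        rw [h6] at h5
        linarith
      have hexp : Real.exp (Real.log 2 / M * n) = (2 : ℝ) ^ ((n : ℝ) / M) := by
        rw [Real.rpow_def_of_pos (by norm_num)]
        congr 1
        field_simp
      have h7 : (2 : ℝ) ^ ((n : ℝ) / M) ≤ (2 : ℝ) ^ ((m : ℝ) + 2) :=
        Real.rpow_le_rpow_of_exponent_le (by norm_num) h4
      have h8 : (2 : ℝ) ^ ((m : ℝ) + 2) = 2 ^ m * 4 := by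
        rw [Real.rpow_add (by norm_num), Real.rpow_natCast]
        norm_num
      rw [h8] at h7
      rw [hexp]
      linarith
    have h9 : Real.exp (-(ε ^ N * 2 ^ m)) ≤ Real.exp (-((1 / 4 : ℝ) * Real.exp (c * n))) := by
      apply Real.exp_le_exp.2
      have h10 := mul_le_mul_of_nonneg_left h3 hx0
      have h11 : Real.exp (c * n) ≤ ε ^ N * Real.exp (Real.log 2 / M * n) := by
        rw [hε, ← Real.exp_nat_mul, ← Real.exp_add]
        apply Real.exp_le_exp.2
        have h12 : (N : ℝ) * a ≤ c := by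
          rw [ha, hc, ← mul_div_assoc, div_le_div_iff₀ (by positivity) (by positivity)]
          have : 0 ≤ Real.log 2 * (2 * M) := by positivity
          nlinarith
        have h13 : Real.log 2 / M = 2 * c := by rw [hc]; field_simp
        rw [h13]
        have h14 := mul_le_mul_of_nonneg_right h12 hn0
        linarith
      nlinarith
    calc (N : ℝ) * ((1 - ε ^ N) ^ (2 ^ m) * ∑ R, μ R)
        ≤ N * (Real.exp (-((1 / 4 : ℝ) * Real.exp (c * n))) * ∑ R, μ R) := by
          apply mul_le_mul_of_nonneg_left _ hN0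
          exact mul_le_mul_of_nonneg_right (h1.trans h9) hS0
      _ ≤ (N + 2) * (Real.exp (-((1 / 4 : ℝ) * Real.exp (c * n))) * ∑ R, μ R) := by
          apply mul_le_mul_of_nonneg_right (by linarith) (by positivity)
      _ = _ := by ring

/-- **The doubly exponential bound for several relations with a joint law of finite energy.** -/
theorem weight_bound (G : Subgroup (Equiv.Perm B)) (M : ℕ) (hM : 0 < M)
    (hfin : ∀ k, Finite (Orb G (Fin k))) :
    ∃ C c δ a : ℝ, 0 < C ∧ 0 < c ∧ 0 < δ ∧ 0 < a ∧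
      ∀ (t : ℕ) (k : Fin t → ℕ) (n : ℕ), (∀ j, n ≤ k j) → ∀ [Fintype (Omega G k)]
      (μ : Finset (Omega G k) → ℝ), (∀ R, 0 ≤ μ R) → FE (Real.exp (-(a * n))) μ →
      ∑ R ∈ (Finset.univ : Finset (Finset (Omega G k))).filter
        (fun R : Finset (Omega G k) =>
          ¬ ∀ j, Rich G (Fin M) (rel G k (R : Set (Omega G k)) j).1), μ R ≤
      t * C * Real.exp (-(δ * Real.exp (c * n))) * ∑ R, μ R := by
  set N := Nat.card (Orb G (Fin M)) with hN
  have hMr : (0 : ℝ) < M := by exact_mod_cast hM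
  have hl2 : 0 < Real.log 2 := Real.log_pos (by norm_num)
  refine ⟨N + 2, Real.log 2 / (2 * M), 1 / 4, Real.log 2 / (2 * M * (N + 1)), by positivity,
    by positivity, by norm_num, by positivity, ?_⟩
  intro t k n hn _ μ hμ0 hμ
  have h1 := fun j => one_bound G M hM hfin hN rfl rfl k j n (hn j) μ hμ0 hμ
  calc _ ≤ ∑ R ∈ (Finset.univ : Finset (Fin t)).biUnion (fun j =>
          (Finset.univ : Finset (Finset (Omega G k))).filter (fun R : Finset (Omega G k) =>
            ¬ Rich G (Fin M) (rel G k (R : Set (Omega G k)) j).1)), μ R := by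
        refine Finset.sum_le_sum_of_subset_of_nonneg ?_ fun R _ _ => hμ0 R
        intro R hR
        obtain ⟨j, hj⟩ := not_forall.1 (Finset.mem_filter.1 hR).2
        exact Finset.mem_biUnion.2 ⟨j, Finset.mem_univ _,
          Finset.mem_filter.2 ⟨Finset.mem_univ _, hj⟩⟩
    _ ≤ ∑ j : Fin t, ∑ R ∈ (Finset.univ : Finset (Finset (Omega G k))).filter
        (fun R : Finset (Omega G k) =>
          ¬ Rich G (Fin M) (rel G k (R : Set (Omega G k)) j).1), μ R := sum_biUnion_le' _ _ _ hμ0
    _ ≤ ∑ _j : Fin t, (N + 2 : ℝ) *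
        Real.exp (-((1 / 4 : ℝ) * Real.exp (Real.log 2 / (2 * M) * n))) * ∑ R, μ R :=
        Finset.sum_le_sum fun j _ => h1 j
    _ = _ := by
        rw [Finset.sum_const, Finset.card_univ, Fintype.card_fin, nsmul_eq_mul]
        ring

end Pool.Agent.N455.CS
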