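import Pool.Agent.N455.CS.Wt

/-!
# Laws of random sets of elements of a finite set (helper455)
-/

set_option autoImplicit false
set_option linter.unusedSectionVars false

namespace Pool.Agent.N455.CS

open Finset
open scoped Classical

/-- `μ` is a probability law on the set of the subsets of `Ω`. -/
def IsLaw {Ω : Type} (μ : Set Ω → ℝ) : Prop := (∀ Θ, 0 ≤ μ Θ) ∧ HasSum μ 1

/-- The probability of the event `P`. -/
noncomputable def prob {Ω : Type} (μ : Set Ω → ℝ) (P : Set Ω → Prop) : ℝ :=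
  ∑' Θ : {Θ : Set Ω // P Θ}, μ Θ.1

/-- Finite energy: given all the other elements, every element `o` of `Ω` is in the random set `Θ` with
conditional probability at least `ε`, and outside of `Θ` with conditional probability at least `ε`. -/
def FiniteEnergy {Ω : Type} (ε : ℝ) (μ : Set Ω → ℝ) : Prop :=
  ∀ (Θ : Set Ω) (o : Ω), ε * (μ (insert o Θ) + μ (Θ \ {o})) ≤ μ (insert o Θ) ∧
    ε * (μ (insert o Θ) + μ (Θ \ {o})) ≤ μ (Θ \ {o})

/-- The law of the random set which contains the elements `o` independently with probabilities `p o`. -/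
noncomputable def productLaw {Ω : Type} (p : Ω → ℝ) (Θ : Set Ω) : ℝ :=
  ∏ᶠ o, if o ∈ Θ then p o else 1 - p o

/-- The Gibbs law with the energy `H`. -/
noncomputable def gibbsLaw {Ω : Type} (H : Set Ω → ℝ) (Θ : Set Ω) : ℝ :=
  Real.exp (-(H Θ)) / ∑' Θ', Real.exp (-(H Θ'))

variable {Ω : Type}

theorem prob_eq [Fintype Ω] (μ : Set Ω → ℝ) (P : Set Ω → Prop) :
    prob μ P = ∑ R ∈ (Finset.univ : Finset (Finset Ω)).filter
      (fun R : Finset Ω => P (R : Set Ω)), μ (R : Set Ω) := by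
  unfold prob
  rw [← (Equiv.subtypeEquiv (Fintype.finsetEquivSet (α := Ω))
    (p := fun R : Finset Ω => P (R : Set Ω)) (q := P) (fun R => by simp)).tsum_eq, tsum_fintype,
    Finset.sum_subtype (p := fun R : Finset Ω => P (R : Set Ω)) _ (fun R => by simp)]
  rfl

theorem prob_le [Fintype Ω] {μ : Set Ω → ℝ} (h0 : ∀ Θ, 0 ≤ μ Θ) {P : Set Ω → Prop}
    {Q : Finset Ω → Prop} [DecidablePred Q] (h : ∀ R : Finset Ω, P (R : Set Ω) → Q R) :
    prob μ P ≤ ∑ R ∈ (Finset.univ : Finset (Finset Ω)).filter Q, μ (R : Set Ω) := by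
  rw [prob_eq]
  refine Finset.sum_le_sum_of_subset_of_nonneg ?_ fun R _ _ => h0 _
  intro R hR
  rw [Finset.mem_filter] at hR ⊢
  exact ⟨Finset.mem_univ _, h R hR.2⟩

theorem sum_set_eq [Fintype Ω] (μ : Set Ω → ℝ) :
    ∑' Θ, μ Θ = ∑ R : Finset Ω, μ (R : Set Ω) := by
  rw [← (Fintype.finsetEquivSet (α := Ω)).tsum_eq, tsum_fintype]
  rfl

theorem IsLaw.sum [Fintype Ω] {μ : Set Ω → ℝ} (h : IsLaw μ) :
    ∑ R : Finset Ω, μ (R : Set Ω) = 1 := by
  rw [← sum_set_eq, h.2.tsum_eq]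

theorem isLaw_of_sum [Fintype Ω] {μ : Set Ω → ℝ} (h0 : ∀ Θ, 0 ≤ μ Θ)
    (h : ∑ R : Finset Ω, μ (R : Set Ω) = 1) : IsLaw μ := by
  refine ⟨h0, ?_⟩
  have h1 : Summable μ := (hasSum_fintype μ).summable
  have h2 := h1.hasSum
  rwa [sum_set_eq, h] at h2

theorem FiniteEnergy.fe [DecidableEq Ω] {ε : ℝ} {μ : Set Ω → ℝ} (h : FiniteEnergy ε μ) :
    FE ε (fun R : Finset Ω => μ (R : Set Ω)) := by
  intro R o
  have h1 := h (R : Set Ω) o
  simp only [Finset.coe_insert, Finset.coe_erase]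
  exact h1

/-- a factor of the product law -/
noncomputable def fac (p : Ω → ℝ) (Θ : Set Ω) (o : Ω) : ℝ := if o ∈ Θ then p o else 1 - p o

theorem product_law [Finite Ω] (p : Ω → ℝ) (ε : ℝ) (hε : 0 ≤ ε)
    (hp : ∀ o, ε ≤ p o ∧ p o ≤ 1 - ε) :
    IsLaw (productLaw p) ∧ FiniteEnergy ε (productLaw p) := by
  have := Fintype.ofFinite Ω
  have hprod : ∀ Θ : Set Ω, productLaw p Θ = ∏ o, fac p Θ o := fun Θ =>
    finprod_eq_prod_of_fintype _
  have hmem : ∀ (Θ : Set Ω) (o : Ω), o ∈ Θ → fac p Θ o = p o := fun Θ o h => if_pos h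
  have hnmem : ∀ (Θ : Set Ω) (o : Ω), o ∉ Θ → fac p Θ o = 1 - p o := fun Θ o h => if_neg h
  have hnn : ∀ (Θ : Set Ω) (o : Ω), 0 ≤ fac p Θ o := by
    intro Θ o
    have := hp o
    unfold fac
    split_ifs <;> linarith
  constructor
  · apply isLaw_of_sum
    · intro Θ
      rw [hprod]
      exact Finset.prod_nonneg fun o _ => hnn Θ o
    · have h1 : ∀ R : Finset Ω, productLaw p (R : Set Ω) =
          (∏ o ∈ R, p o) * ∏ o ∈ Finset.univ \ R, (1 - p o) := by
        intro R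
        rw [hprod, ← Finset.prod_sdiff (Finset.subset_univ R), mul_comm]
        congr 1
        · exact Finset.prod_congr rfl fun o ho => hmem _ _ (Finset.mem_coe.2 ho)
        · refine Finset.prod_congr rfl fun o ho => hnmem _ _ ?_
          exact fun h => (Finset.mem_sdiff.1 ho).2 (Finset.mem_coe.1 h)
      have h2 := Finset.prod_add p (fun o => 1 - p o) (Finset.univ : Finset Ω)
      rw [Finset.powerset_univ] at h2
      rw [Finset.sum_congr rfl fun R _ => h1 R, ← h2]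
      exact Finset.prod_eq_one fun o _ => by ring
  · intro Θ o
    have hsplit : ∀ Θ' : Set Ω, productLaw p Θ' =
        fac p Θ' o * ∏ x ∈ Finset.univ.erase o, fac p Θ' x := fun Θ' => by
      rw [hprod, ← Finset.mul_prod_erase _ _ (Finset.mem_univ o)]
    have h1 : ∏ x ∈ Finset.univ.erase o, fac p (insert o Θ) x =
        ∏ x ∈ Finset.univ.erase o, fac p (Θ \ {o}) x := by
      refine Finset.prod_congr rfl fun x hx => ?_
      have hxo : x ≠ o := Finset.ne_of_mem_erase hx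
      by_cases h : x ∈ Θ
      · rw [hmem _ _ (Set.mem_insert_of_mem _ h), hmem (Θ \ {o}) x ⟨h, hxo⟩]
      · rw [hnmem _ _ (fun h' => (Set.mem_insert_iff.1 h').elim hxo h), hnmem _ _ (fun h' => h h'.1)]
    rw [hsplit, hsplit, h1, hmem _ _ (Set.mem_insert _ _), hnmem (Θ \ {o}) o (fun h => h.2 rfl)]
    set q := ∏ x ∈ Finset.univ.erase o, fac p (Θ \ {o}) x with hq
    have hq0 : 0 ≤ q := Finset.prod_nonneg fun x _ => hnn _ x
    have h4 := hp o
    have h5 : p o * q + (1 - p o) * q = q := by ring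
    rw [h5]
    exact ⟨mul_le_mul_of_nonneg_right h4.1 hq0, mul_le_mul_of_nonneg_right (by linarith) hq0⟩

theorem gibbs_law [Finite Ω] (H : Set Ω → ℝ) (L : ℝ)
    (hH : ∀ (Θ : Set Ω) (o : Ω), |H (insert o Θ) - H (Θ \ {o})| ≤ L) :
    IsLaw (gibbsLaw H) ∧ FiniteEnergy (1 / (1 + Real.exp L)) (gibbsLaw H) := by
  have := Fintype.ofFinite Ω
  have hZ : 0 < ∑' Θ', Real.exp (-(H Θ')) := by
    rw [tsum_fintype]
    exact Finset.sum_pos (fun Θ _ => Real.exp_pos _) ⟨∅, Finset.mem_univ _⟩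
  constructor
  · apply isLaw_of_sum
    · intro Θ
      exact div_nonneg (Real.exp_pos _).le hZ.le
    · unfold gibbsLaw
      rw [← Finset.sum_div, ← sum_set_eq (fun Θ => Real.exp (-(H Θ)))]
      exact div_self hZ.ne'
  · intro Θ o
    unfold gibbsLaw
    set Z := ∑' Θ', Real.exp (-(H Θ')) with hZdef
    have h1 := abs_le.1 (hH Θ o)
    have hL : 0 < 1 + Real.exp L := by positivity
    have h2 : Real.exp (-(H (Θ \ {o}))) ≤ Real.exp L * Real.exp (-(H (insert o Θ))) := by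
      rw [← Real.exp_add]
      exact Real.exp_le_exp.2 (by linarith)
    have h3 : Real.exp (-(H (insert o Θ))) ≤ Real.exp L * Real.exp (-(H (Θ \ {o}))) := by
      rw [← Real.exp_add]
      exact Real.exp_le_exp.2 (by linarith)
    rw [← add_div, ← mul_div_assoc, div_le_div_iff_of_pos_right hZ,
      div_le_div_iff_of_pos_right hZ, div_mul_eq_mul_div, one_mul, div_le_iff₀ hL,
      div_le_iff₀ hL]
    constructor <;> nlinarith

end Pool.Agent.N455.CS
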