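import Pool.Agent.N455.CS.Wt
import Pool.Agent.W994.AR.Bound

/-!
# Random relations with finite energy are rich (helper455)
-/

set_option autoImplicit false
set_option linter.unusedSectionVars false

namespace Pool.Agent.N455.CS

open Finset
open Pool.Agent.W994.AR
open scoped Classical

variable {B : Type}

/-- the orbits of tuples of the lengths `k 0, ..., k (t - 1)` -/
abbrev Omega (G : Subgroup (Equiv.Perm B)) {t : ℕ} (k : Fin t → ℕ) : Type :=
  (j : Fin t) × Orb G (Fin (k j))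

/-- the `j`-th relation given by a set of orbits -/
def rel (G : Subgroup (Equiv.Perm B)) {t : ℕ} (k : Fin t → ℕ) (Θ : Set (Omega G k)) (j : Fin t) :
    InvRel G (Fin (k j)) :=
  ⟨{v | (⟨j, Quotient.mk (orb G (Fin (k j))) v⟩ : Omega G k) ∈ Θ}, by
    intro g hg v hv
    have : (Quotient.mk (orb G (Fin (k j))) v) = Quotient.mk (orb G (Fin (k j))) (fun i => g (v i)) :=
      Quotient.sound (⟨g, hg, fun _ => rfl⟩ : Same G v (fun i => g (v i)))
    simp only [Set.mem_ofPred_eq] at hv ⊢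
    rw [← this]
    exact hv⟩

theorem mem_rel (G : Subgroup (Equiv.Perm B)) {t : ℕ} (k : Fin t → ℕ) (Θ : Set (Omega G k))
    (j : Fin t) (v : Fin (k j) → B) :
    v ∈ (rel G k Θ j).1 ↔ (⟨j, Quotient.mk (orb G (Fin (k j))) v⟩ : Omega G k) ∈ Θ := Iff.rfl

theorem sum_biUnion_le' {α κ : Type} [DecidableEq α] (s : Finset κ) (f : κ → Finset α) (μ : α → ℝ)
    (h : ∀ x, 0 ≤ μ x) : ∑ x ∈ s.biUnion f, μ x ≤ ∑ o ∈ s, ∑ x ∈ f o, μ x := by
  induction s using Finset.induction_on with
  | empty => simp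
  | insert a s ha ih =>
    rw [Finset.biUnion_insert, Finset.sum_insert ha]
    have h1 : ∑ x ∈ f a ∪ s.biUnion f, μ x ≤ ∑ x ∈ f a, μ x + ∑ x ∈ s.biUnion f, μ x := by
      rw [← Finset.sum_union_inter]
      have : 0 ≤ ∑ x ∈ f a ∩ s.biUnion f, μ x := Finset.sum_nonneg fun x _ => h x
      linarith
    linarith

theorem rich_weight (G : Subgroup (Equiv.Perm B)) {t : ℕ} (k : Fin t → ℕ) (j : Fin t) (M m : ℕ)
    (hM : 0 < M) (hk : (m + 1) * M ≤ k j) [hF : Finite (Orb G (Fin M))] [Fintype (Omega G k)]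
    {ε : ℝ} (hε : 0 ≤ ε) (hε1 : ε ≤ 1) {μ : Finset (Omega G k) → ℝ} (hμ0 : ∀ R, 0 ≤ μ R)
    (hμ : FE ε μ) :
    ∑ R ∈ (Finset.univ : Finset (Finset (Omega G k))).filter
        (fun R : Finset (Omega G k) => ¬ Rich G (Fin M) (rel G k (R : Set (Omega G k)) j).1), μ R ≤
      Nat.card (Orb G (Fin M)) * ((1 - ε ^ Nat.card (Orb G (Fin M))) ^ (2 ^ m) * ∑ R, μ R) := by
  have := Fintype.ofFinite (Orb G (Fin M))
  have hMk : M ≤ k j := le_trans (by nlinarith) hk
  -- the map on orbits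
  let φ : Finset ℕ → Orb G (Fin M) → Orb G (Fin (k j)) := fun A =>
    Quotient.map' (s₁ := orb G (Fin M)) (s₂ := orb G (Fin (k j))) (fun u => u ∘ word M (k j) hM A)
      (fun u v h => Same.comp h _)
  have hφ : ∀ A u, φ A (Quotient.mk (orb G (Fin M)) u) =
      Quotient.mk (orb G (Fin (k j))) (u ∘ word M (k j) hM A) := fun A u => rfl
  let ncO : Finset (Orb G (Fin M)) :=
    Finset.univ.filter (fun o => ∃ u, NC u ∧ Quotient.mk (orb G (Fin M)) u = o)
  have hφinj : ∀ A o o', φ A o = φ A o' → o = o' := by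
    intro A o o' h
    obtain ⟨u, rfl⟩ := Quotient.exists_rep o
    obtain ⟨v, rfl⟩ := Quotient.exists_rep o'
    apply Quotient.sound
    exact same_of_word M (k j) hM hMk A u v (Quotient.exact h)
  let ψ : Finset ℕ → Orb G (Fin M) → Omega G k := fun A o => ⟨j, φ A o⟩
  have hψ : ∀ A o A' o', ψ A o = ψ A' o' → φ A o = φ A' o' := by
    intro A o A' o' h
    exact eq_of_heq (Sigma.mk.inj h).2
  let D : Finset ℕ → Finset (Omega G k) := fun A => ncO.image (ψ A)
  let T : Orb G (Fin M) → Finset ℕ → Finset (Omega G k) := fun o A => (ncO.erase o).image (ψ A)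
  let W : Finset (Finset ℕ) := (Finset.Icc 1 m).powerset
  have hWcard : W.card = 2 ^ m := by
    simp [W]
  have hcount : ∀ o, ∑ R ∈ (Finset.univ : Finset (Finset (Omega G k))).filter
      (fun R => Avoid W D (T o) R), μ R ≤
      (1 - ε ^ Nat.card (Orb G (Fin M))) ^ (2 ^ m) * ∑ R, μ R := by
    intro o
    rw [← hWcard]
    apply wcount hε hε1 hμ0 hμ
    · intro w _
      rw [Nat.card_eq_fintype_card]
      exact (Finset.card_image_le).trans (Finset.card_le_univ _)
    · intro w hw w' hw' hne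
      rw [Finset.disjoint_left]
      intro x hx hx'
      obtain ⟨o1, ho1, h1⟩ := Finset.mem_image.1 hx
      obtain ⟨o2, ho2, h2⟩ := Finset.mem_image.1 hx'
      obtain ⟨u, hu, rfl⟩ := (Finset.mem_filter.1 ho1).2
      obtain ⟨v, hv, rfl⟩ := (Finset.mem_filter.1 ho2).2
      rw [← h2] at h1
      have h3 := hψ _ _ _ _ h1
      exact word_differ M (k j) m hM hk w w' (Finset.mem_powerset.1 hw) (Finset.mem_powerset.1 hw')
        hne u v hu hv (Quotient.exact h3)
  have himg : ∀ R : Finset (Omega G k), ¬ Rich G (Fin M) (rel G k (R : Set (Omega G k)) j).1 →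
      ∃ o : Orb G (Fin M), Avoid W D (T o) R := by
    intro R hR
    unfold Rich at hR
    push Not at hR
    obtain ⟨v, hv, hbad⟩ := hR
    refine ⟨Quotient.mk (orb G (Fin M)) v, ?_⟩
    intro A _ hEq
    have hvnc : Quotient.mk (orb G (Fin M)) v ∈ ncO :=
      Finset.mem_filter.2 ⟨Finset.mem_univ _, v, hv, rfl⟩
    have h1 : v ∘ word M (k j) hM A ∉ (rel G k (R : Set (Omega G k)) j).1 := by
      intro hin
      rw [mem_rel, Finset.mem_coe] at hin
      have h2 : ψ A (Quotient.mk (orb G (Fin M)) v) ∈ D A := Finset.mem_image_of_mem _ hvnc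
      have h4 := (hEq _ h2).1 hin
      obtain ⟨o', ho', h3⟩ := Finset.mem_image.1 h4
      have := hφinj A _ _ (hψ _ _ _ _ h3)
      rw [this] at ho'
      exact Finset.notMem_erase _ _ ho'
    obtain ⟨u, hu, hus, hun⟩ := hbad (word M (k j) hM A) h1
    apply hun
    rw [mem_rel, Finset.mem_coe]
    have hunc : Quotient.mk (orb G (Fin M)) u ∈ ncO :=
      Finset.mem_filter.2 ⟨Finset.mem_univ _, u, hu, rfl⟩
    have h2 : ψ A (Quotient.mk (orb G (Fin M)) u) ∈ T (Quotient.mk (orb G (Fin M)) v) A := by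
      apply Finset.mem_image_of_mem
      rw [Finset.mem_erase]
      exact ⟨fun h => hus (Quotient.exact h), hunc⟩
    exact (hEq _ (Finset.mem_image_of_mem _ hunc)).2 h2
  calc ∑ R ∈ (Finset.univ : Finset (Finset (Omega G k))).filter
        (fun R : Finset (Omega G k) => ¬ Rich G (Fin M) (rel G k (R : Set (Omega G k)) j).1), μ R
      ≤ ∑ R ∈ (Finset.univ : Finset (Orb G (Fin M))).biUnion (fun o =>
          (Finset.univ : Finset (Finset (Omega G k))).filter (fun R => Avoid W D (T o) R)), μ R := by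
        refine Finset.sum_le_sum_of_subset_of_nonneg ?_ fun R _ _ => hμ0 R
        intro R hR
        obtain ⟨o, ho⟩ := himg R (Finset.mem_filter.1 hR).2
        exact Finset.mem_biUnion.2 ⟨o, Finset.mem_univ _,
          Finset.mem_filter.2 ⟨Finset.mem_univ _, ho⟩⟩
    _ ≤ ∑ o : Orb G (Fin M), ∑ R ∈ (Finset.univ : Finset (Finset (Omega G k))).filter
        (fun R => Avoid W D (T o) R), μ R := sum_biUnion_le' _ _ _ hμ0
    _ ≤ ∑ o : Orb G (Fin M), (1 - ε ^ Nat.card (Orb G (Fin M))) ^ (2 ^ m) * ∑ R, μ R :=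
        Finset.sum_le_sum (fun o _ => hcount o)
    _ = _ := by
        rw [Finset.sum_const, Finset.card_univ, nsmul_eq_mul, Nat.card_eq_fintype_card]

end Pool.Agent.N455.CS
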