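import Pool.Agent.N455.CS.Bd
import Pool.Agent.W994.AR.Final

/-!
# Rich relations give the dichotomy for all families of relations of bounded arity (helper455)
-/

set_option autoImplicit false
set_option linter.unusedSectionVars false

namespace Pool.Agent.N455.CS

open Finset
open Pool.Agent.W994.AR
open scoped Classical

variable {B : Type}

theorem rich_retract {G : Subgroup (Equiv.Perm B)} {V V' : Type} (s : V → V') (i : V' → V)
    (hsi : ∀ x, s (i x) = x) {k : ℕ} {R : Set (Fin k → B)} (h : Rich G V R) : Rich G V' R := by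
  intro v hv
  obtain ⟨w, hw1, hw2⟩ := h (v ∘ s) (by
    obtain ⟨x, y, hxy⟩ := hv
    exact ⟨i x, i y, by simpa [hsi] using hxy⟩)
  refine ⟨s ∘ w, hw1, ?_⟩
  intro u hu hus
  exact hw2 (u ∘ s) (by
    obtain ⟨x, y, hxy⟩ := hu
    exact ⟨i x, i y, by simpa [hsi] using hxy⟩) (by
    rintro ⟨g, hg, h⟩
    exact hus ⟨g, hg, fun x => by simpa [hsi] using h (i x)⟩)

theorem rich_mono {G : Subgroup (Equiv.Perm B)} {M M' : ℕ} (h0 : 0 < M') (hM : M' ≤ M) {k : ℕ}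
    {R : Set (Fin k → B)} (h : Rich G (Fin M) R) : Rich G (Fin M') R :=
  rich_retract (fun x : Fin M => if h : (x : ℕ) < M' then (⟨x, h⟩ : Fin M') else ⟨0, h0⟩)
    (Fin.castLE hM) (fun x => by simp) h

theorem dim_le {σ ι : Type} [Finite σ] [Finite ι] (arB : σ → ℕ) (arΓ : ι → ℕ) {K r : ℕ}
    (hK : Nat.card ι ≤ K) (hr : ∀ l, arΓ l ≤ r) :
    dim arB arΓ ≤ dim arB (fun _ : Fin K => r) := by
  unfold dim
  rw [Nat.card_sum, Nat.card_sum, Nat.card_sum, Nat.card_sum]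
  have h1 : Nat.card (Σ l : ι, Fin (arΓ l)) ≤ Nat.card (Σ _ : Fin K, Fin r) := by
    obtain ⟨m, ⟨e⟩⟩ := Finite.exists_equiv_fin ι
    have hm : m ≤ K := by
      rw [Nat.card_congr e, Nat.card_eq_fintype_card, Fintype.card_fin] at hK
      exact hK
    apply Nat.card_le_card_of_injective
      (fun x => (⟨Fin.castLE hm (e x.1), Fin.castLE (hr x.1) x.2⟩ : Σ _ : Fin K, Fin r))
    rintro ⟨l, i⟩ ⟨l', i'⟩ h
    simp only [Sigma.mk.injEq] at h
    obtain ⟨h1, h2⟩ := h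
    have h3 : l = l' := e.injective (Fin.castLE_injective hm h1)
    subst h3
    have h4 : i = i' := Fin.castLE_injective _ (eq_of_heq h2)
    rw [h4]
  beta_reduce
  omega

/-- change of the symbols of an atom -/
def tr {ι ι' τ V : Type} {arΓ : ι → ℕ} {k : τ → ℕ} (ρ : ι' → ι) :
    Atom (ι' ⊕ τ) (Sum.elim (fun x => arΓ (ρ x)) k) V → Atom (ι ⊕ τ) (Sum.elim arΓ k) V
  | .eq x y => .eq x y
  | .rel (.inl i) x => .rel (.inl (ρ i)) x
  | .rel (.inr j) x => .rel (.inr j) x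

theorem holds_tr {ι ι' τ V : Type} {arΓ : ι → ℕ} {k : τ → ℕ} (ρ : ι' → ι) (Γ : Str ι arΓ B)
    (R : Str τ k B) (e : V → B)
    (φ : Atom (ι' ⊕ τ) (Sum.elim (fun x => arΓ (ρ x)) k) V) :
    (tr ρ φ).Holds (expand Γ R) e ↔
      φ.Holds (expand (fun x => Γ (ρ x) : Str ι' (fun x => arΓ (ρ x)) B) R) e := by
  rcases φ with ⟨x, y⟩ | ⟨i | j, x⟩
  · rfl
  · rfl
  · rfl

theorem ppdef_expand {ι ι' τ V : Type} {arΓ : ι → ℕ} {k : τ → ℕ} (ρ : ι' → ι) (Γ : Str ι arΓ B)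
    (R : Str τ k B) {S : Set (V → B)}
    (h : PPDef (expand (fun x => Γ (ρ x) : Str ι' (fun x => arΓ (ρ x)) B) R) S) :
    PPDef (expand Γ R) S := by
  obtain ⟨q, Φ, h⟩ := h
  refine ⟨q, Φ.map (tr ρ), fun v => ?_⟩
  rw [h v]
  refine exists_congr fun u => ?_
  simp only [List.mem_map, forall_exists_index, and_imp, forall_apply_eq_imp_iff₂, holds_tr]

theorem ppmax_expand {G : Subgroup (Equiv.Perm B)} {ι ι' τ : Type} {arΓ : ι → ℕ} {k : τ → ℕ}
    (ρ : ι' → ι) (Γ : Str ι arΓ B) (R : Str τ k B)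
    (h : PPMax G (expand (fun x => Γ (ρ x) : Str ι' (fun x => arΓ (ρ x)) B) R)) :
    PPMax G (expand Γ R) := by
  obtain ⟨⟨n, E, hn, hE, h1, h2⟩, h3, h4⟩ := h
  refine ⟨⟨n, E, hn, ppdef_expand ρ Γ R hE, h1, h2⟩,
    fun n S hS => ppdef_expand ρ Γ R (h3 n S hS), fun n f hf => h4 n f ?_⟩
  rintro (x | j) v hv
  · exact hf (Sum.inl (ρ x)) v hv
  · exact hf (Sum.inr j) v hv

/-- **Rich relations give the dichotomy for all families of invariant relations of arity at most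
`r`.** -/
theorem dich_of_rich {σ : Type} [Nontrivial B] [Finite σ] {arB : σ → ℕ} (𝔹 : Str σ arB B)
    (h𝔹 : Homogeneous 𝔹) (r : ℕ) :
    ∃ M : ℕ, 0 < M ∧ ∀ (ι : Type) [Finite ι] (arΓ : ι → ℕ) (Γ : Str ι arΓ B),
      (∀ l, arΓ l ≤ r) → (∀ l, Invar (autGroup 𝔹) (Γ l)) →
      ∀ (t : ℕ), 0 < t → ∀ (k : Fin t → ℕ) (R : ∀ j, InvRel (autGroup 𝔹) (Fin (k j))),
      (∀ j, Rich (autGroup 𝔹) (Fin M) (R j).1) →
      ConstEndo (expand Γ (fun j => (R j).1)) ∨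
        PPMax (autGroup 𝔹) (expand Γ (fun j => (R j).1)) := by
  set K := Nat.card (Σ s : Fin (r + 1), InvRel (autGroup 𝔹) (Fin s)) with hK
  refine ⟨dim arB (fun _ : Fin K => r), dim_pos _ _, ?_⟩
  intro ι _ arΓ Γ hr hΓ t ht k R hR
  have hfin : ∀ s, Finite (InvRel (autGroup 𝔹) (Fin s)) := fun s => by
    have := hom_finite h𝔹 (Fin s)
    exact finite_inv _ _
  have hfin' : Finite (Σ s : Fin (r + 1), InvRel (autGroup 𝔹) (Fin s)) := inferInstance
  let f : ι → Σ s : Fin (r + 1), InvRel (autGroup 𝔹) (Fin s) := fun l =>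
    ⟨⟨arΓ l, Nat.lt_succ_of_le (hr l)⟩, ⟨Γ l, hΓ l⟩⟩
  have hrep : ∀ x : Set.range f, ∃ l : ι, f l = x.1 := fun x => x.2
  choose rep hrep using hrep
  by_cases hc : ConstEndo (expand Γ (fun j => (R j).1))
  · exact Or.inl hc
  refine Or.inr (ppmax_expand rep Γ (fun j => (R j).1) ?_)
  have hcard : Nat.card (Set.range f) ≤ K := by
    rw [hK]
    exact Nat.card_le_card_of_injective (fun x : Set.range f => x.1) Subtype.val_injective
  have hdim := dim_le arB (fun x : Set.range f => arΓ (rep x)) hcard (fun x => hr (rep x))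
  refine max_of_rich 𝔹 h𝔹 (fun x => Γ (rep x) : Str (Set.range f) (fun x => arΓ (rep x)) B)
    (fun x => hΓ (rep x)) ht R (fun j => rich_mono (dim_pos _ _) hdim (hR j)) ?_
  rintro ⟨b, hb⟩
  apply hc
  refine ⟨b, ?_⟩
  rintro (l | j) v hv
  · have h1 : f (rep ⟨f l, l, rfl⟩) = f l := hrep ⟨f l, l, rfl⟩
    let P : (Σ s : Fin (r + 1), InvRel (autGroup 𝔹) (Fin s)) → Prop := fun y =>
      ∀ v ∈ y.2.1, (fun _ => b) ∈ y.2.1
    have h2 : P (f (rep ⟨f l, l, rfl⟩)) := fun v hv => hb (Sum.inl ⟨f l, l, rfl⟩) v hv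
    rw [h1] at h2
    exact h2 v hv
  · exact hb (Sum.inr j) v hv

end Pool.Agent.N455.CS
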