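import Mathlib

/-!
# Random sets with finite energy avoid prescribed traces on disjoint sets with small probability
(helper455)
-/

set_option autoImplicit false
set_option linter.unusedSectionVars false

namespace Pool.Agent.N455.CS

open Finset
open scoped Classical

variable {Ω : Type} [DecidableEq Ω]

/-- finite energy: all conditional probabilities of `o ∈ R` and `o ∉ R` are at least `ε` -/
def FE (ε : ℝ) (μ : Finset Ω → ℝ) : Prop :=
  ∀ (R : Finset Ω) (o : Ω), ε * (μ (insert o R) + μ (R.erase o)) ≤ μ (insert o R) ∧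
    ε * (μ (insert o R) + μ (R.erase o)) ≤ μ (R.erase o)

variable [Fintype Ω]

theorem toggle {ε : ℝ} {μ : Finset Ω → ℝ} (hμ : FE ε μ) (o : Ω) (Y : Finset (Finset Ω))
    (hY : ∀ R, insert o R ∈ Y ↔ R.erase o ∈ Y) :
    ε * ∑ R ∈ Y, μ R ≤ ∑ R ∈ Y.filter (fun R => o ∈ R), μ R ∧
      ε * ∑ R ∈ Y, μ R ≤ ∑ R ∈ Y.filter (fun R => o ∉ R), μ R := by
  have h1 : ∑ R ∈ Y.filter (fun R => o ∈ R), μ R =
      ∑ R ∈ Y.filter (fun R => o ∉ R), μ (insert o R) := by
    symm
    refine Finset.sum_nbij' (fun R => insert o R) (fun R => R.erase o) ?_ ?_ ?_ ?_ ?_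
    · intro R hR
      obtain ⟨h2, h3⟩ := mem_filter.1 hR
      refine mem_filter.2 ⟨(hY R).2 ?_, mem_insert_self _ _⟩
      rwa [erase_eq_of_notMem h3]
    · intro R hR
      obtain ⟨h2, h3⟩ := mem_filter.1 hR
      refine mem_filter.2 ⟨(hY R).1 ?_, notMem_erase _ _⟩
      rwa [insert_eq_of_mem h3]
    · intro R hR
      exact erase_insert (mem_filter.1 hR).2
    · intro R hR
      exact insert_erase (mem_filter.1 hR).2
    · intro R _
      rfl
  have h2 : ∑ R ∈ Y, μ R = ∑ R ∈ Y.filter (fun R => o ∉ R), (μ (insert o R) + μ (R.erase o)) := by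
    rw [← Finset.sum_filter_add_sum_filter_not Y (fun R => o ∈ R), h1, ← Finset.sum_add_distrib]
    refine Finset.sum_congr rfl fun R hR => ?_
    rw [erase_eq_of_notMem (mem_filter.1 hR).2]
  constructor
  · rw [h1, h2, Finset.mul_sum]
    exact Finset.sum_le_sum fun R _ => (hμ R o).1
  · rw [h2, Finset.mul_sum]
    refine Finset.sum_le_sum fun R hR => ?_
    have h3 := (hμ R o).2
    rwa [erase_eq_of_notMem (mem_filter.1 hR).2] at h3 ⊢

/-- `R` has the trace of `A` on `D` -/
def Mat (D A R : Finset Ω) : Prop := ∀ x ∈ D, (x ∈ R ↔ x ∈ A)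

theorem mat_insert {D A R : Finset Ω} {o : Ω} :
    Mat (insert o D) A R ↔ (o ∈ R ↔ o ∈ A) ∧ Mat D A R := by
  unfold Mat
  simp only [mem_insert, forall_eq_or_imp]

theorem mat_toggle {D A R : Finset Ω} {o : Ω} (ho : o ∉ D) :
    Mat D A (insert o R) ↔ Mat D A (R.erase o) := by
  unfold Mat
  refine forall₂_congr fun x hx => ?_
  have hxo : x ≠ o := fun h => ho (h ▸ hx)
  rw [mem_insert, mem_erase]
  simp [hxo]

theorem block {ε : ℝ} (hε : 0 ≤ ε) {μ : Finset Ω → ℝ} (hμ : FE ε μ)
    (X : Finset (Finset Ω)) (A D : Finset Ω) :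
    (∀ o ∈ D, ∀ R, insert o R ∈ X ↔ R.erase o ∈ X) →
    ε ^ D.card * ∑ R ∈ X, μ R ≤ ∑ R ∈ X.filter (fun R => Mat D A R), μ R := by
  induction D using Finset.induction_on with
  | empty =>
    intro _
    have : X.filter (fun R => Mat ∅ A R) = X := by
      refine filter_true_of_mem fun R _ x hx => ?_
      exact absurd hx (notMem_empty x)
    rw [this, card_empty, pow_zero, one_mul]
  | insert o D ho ih =>
    intro hX
    have ih' := ih fun x hx => hX x (mem_insert_of_mem hx)
    set Y := X.filter (fun R => Mat D A R) with hYdef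
    have hY : ∀ R, insert o R ∈ Y ↔ R.erase o ∈ Y := by
      intro R
      rw [hYdef, mem_filter, mem_filter, hX o (mem_insert_self _ _) R, mat_toggle ho]
    have h1 := toggle hμ o Y hY
    rw [card_insert_of_notMem ho, pow_succ, mul_comm (ε ^ D.card) ε, mul_assoc]
    by_cases hoA : o ∈ A
    · have h2 : X.filter (fun R => Mat (insert o D) A R) = Y.filter (fun R => o ∈ R) := by
        ext R
        rw [hYdef, mem_filter, mem_filter, mem_filter, mat_insert]
        simp only [hoA, iff_true]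
        tauto
      rw [h2]
      exact (mul_le_mul_of_nonneg_left ih' hε).trans h1.1
    · have h2 : X.filter (fun R => Mat (insert o D) A R) = Y.filter (fun R => o ∉ R) := by
        ext R
        rw [hYdef, mem_filter, mem_filter, mem_filter, mat_insert]
        simp only [hoA, iff_false]
        tauto
      rw [h2]
      exact (mul_le_mul_of_nonneg_left ih' hε).trans h1.2

/-- `R` has none of the prescribed traces -/
def Avoid {κ : Type} (W : Finset κ) (D A : κ → Finset Ω) (R : Finset Ω) : Prop :=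
  ∀ w ∈ W, ¬ Mat (D w) (A w) R

/-- **The weighted form of the counting lemma.** -/
theorem wcount {κ : Type} {ε : ℝ} (hε : 0 ≤ ε) (hε1 : ε ≤ 1) {μ : Finset Ω → ℝ}
    (hμ0 : ∀ R, 0 ≤ μ R) (hμ : FE ε μ) (d : ℕ) (W : Finset κ) (D A : κ → Finset Ω) :
    (∀ w ∈ W, (D w).card ≤ d) →
    (∀ w ∈ W, ∀ w' ∈ W, w ≠ w' → Disjoint (D w) (D w')) →
    ∑ R ∈ (Finset.univ : Finset (Finset Ω)).filter (fun R => Avoid W D A R), μ R ≤
      (1 - ε ^ d) ^ W.card * ∑ R, μ R := by
  induction W using Finset.induction_on with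
  | empty =>
    intro _ _
    rw [card_empty, pow_zero, one_mul]
    exact Finset.sum_le_sum_of_subset_of_nonneg (filter_subset _ _) fun R _ _ => hμ0 R
  | insert w0 W hw0 ih =>
    intro hd hdis
    have ih' := ih (fun w hw => hd w (mem_insert_of_mem hw))
      (fun w hw w' hw' => hdis w (mem_insert_of_mem hw) w' (mem_insert_of_mem hw'))
    set X := (Finset.univ : Finset (Finset Ω)).filter (fun R => Avoid W D A R) with hX
    have hstab : ∀ o ∈ D w0, ∀ R, insert o R ∈ X ↔ R.erase o ∈ X := by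
      intro o ho R
      rw [hX, mem_filter, mem_filter]
      simp only [mem_univ, true_and]
      refine forall₂_congr fun w hw => not_congr ?_
      have hdisj : Disjoint (D w0) (D w) := hdis w0 (mem_insert_self _ _) w (mem_insert_of_mem hw)
        (fun h => hw0 (h ▸ hw))
      exact mat_toggle (Finset.disjoint_left.1 hdisj ho)
    have h1 := block hε hμ X (A w0) (D w0) hstab
    have hX0 : 0 ≤ ∑ R ∈ X, μ R := Finset.sum_nonneg fun R _ => hμ0 R
    have h2 : ε ^ d * ∑ R ∈ X, μ R ≤ ε ^ (D w0).card * ∑ R ∈ X, μ R :=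
      mul_le_mul_of_nonneg_right (pow_le_pow_of_le_one hε hε1 (hd w0 (mem_insert_self _ _))) hX0
    have h5 : (Finset.univ : Finset (Finset Ω)).filter (fun R => Avoid (insert w0 W) D A R) =
        X.filter (fun R => ¬ Mat (D w0) (A w0) R) := by
      ext R
      rw [hX, mem_filter, mem_filter, mem_filter]
      unfold Avoid
      simp only [mem_univ, true_and, mem_insert, forall_eq_or_imp]
      tauto
    have h3 : ∑ R ∈ (Finset.univ : Finset (Finset Ω)).filter (fun R => Avoid (insert w0 W) D A R),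
        μ R = ∑ R ∈ X, μ R - ∑ R ∈ X.filter (fun R => Mat (D w0) (A w0) R), μ R := by
      rw [h5, ← Finset.sum_filter_add_sum_filter_not X (fun R => Mat (D w0) (A w0) R),
        add_sub_cancel_left]
    rw [h3, card_insert_of_notMem hw0, pow_succ]
    have h4 : 0 ≤ 1 - ε ^ d := by
      have : ε ^ d ≤ 1 := pow_le_one₀ hε hε1
      linarith
    calc ∑ R ∈ X, μ R - ∑ R ∈ X.filter (fun R => Mat (D w0) (A w0) R), μ R
        ≤ (1 - ε ^ d) * ∑ R ∈ X, μ R := by linarith
      _ ≤ (1 - ε ^ d) * ((1 - ε ^ d) ^ W.card * ∑ R, μ R) := mul_le_mul_of_nonneg_left ih' h4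
      _ = _ := by ring

end Pool.Agent.N455.CS
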